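import Mathlib

set_option autoImplicit false

/-! The six element spindle and its one-term distributive chain complex. -/

namespace Pool.Agent.Lib.MP_037dd7_al

/-- the six letters: `0`, `1` fix each other, `2 = f`, `3 = a`, `4 = b`, `5 = o` -/
abbrev Y := Fin 6

/-- the spindle operation -/
def op (p q : Y) : Y :=
  (![![0, 0, 2, 3, 4, 5], ![1, 1, 2, 3, 4, 5], ![3, 4, 2, 3, 4, 5], ![5, 5, 2, 3, 4, 5],
    ![5, 5, 2, 3, 4, 5], ![5, 5, 2, 3, 4, 5]] : Fin 6 → Fin 6 → Fin 6) p q

lemma op_dist (a b c : Y) : op (op a b) c = op (op a c) (op b c) := by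
  revert a b c; decide

lemma op_idem (a : Y) : op a a = a := by
  revert a; decide

/-- words of length `m` -/
abbrev U (m : ℕ) := (Fin m → Y) →₀ ℚ

lemma finrank_U (m : ℕ) : Module.finrank ℚ (U m) = 6 ^ m := by
  simp [U, Module.finrank_finsupp_self]

/-- the faces -/
def face {m : ℕ} (i : Fin (m + 1)) (x : Fin (m + 1) → Y) : Fin m → Y := fun j =>
  if Fin.castSucc j < i then op (x (i.succAbove j)) (x i) else x (i.succAbove j)

/-- prepend a letter -/
noncomputable def cons {m : ℕ} (p : Y) : U m →ₗ[ℚ] U (m + 1) :=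
  Finsupp.lmapDomain ℚ ℚ (fun x : Fin m → Y => (Fin.cons p x : Fin (m + 1) → Y))

lemma cons_single {m : ℕ} (p : Y) (x : Fin m → Y) (c : ℚ) :
    cons p (Finsupp.single x c) = Finsupp.single (Fin.cons p x : Fin (m + 1) → Y) c := by
  simp [cons]

/-- the coefficient of the first letter `p` -/
noncomputable def comp {m : ℕ} (p : Y) : U (m + 1) →ₗ[ℚ] U m :=
  Finsupp.linearCombination ℚ (fun x : Fin (m + 1) → Y =>
    if x 0 = p then Finsupp.single (Fin.tail x) (1 : ℚ) else 0)

/-- delete a letter `y` in all possible ways -/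
noncomputable def Del {m : ℕ} (y : Y) : U (m + 1) →ₗ[ℚ] U m :=
  Finsupp.linearCombination ℚ (fun x : Fin (m + 1) → Y =>
    ∑ i : Fin (m + 1), if x i = y then Finsupp.single (face i x) ((-1 : ℚ) ^ (i : ℕ)) else 0)

/-- the boundary -/
noncomputable def bd (m : ℕ) : U (m + 1) →ₗ[ℚ] U m :=
  ∑ i : Fin (m + 1), ((-1 : ℚ) ^ (i : ℕ)) • Finsupp.lmapDomain ℚ ℚ (face i)

lemma ext_cons {m : ℕ} {V : Type*} [AddCommGroup V] [Module ℚ V] {L L' : U (m + 1) →ₗ[ℚ] V}
    (h : ∀ p w, L (cons p w) = L' (cons p w)) : L = L' := by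
  apply Finsupp.lhom_ext
  intro x c
  have := h (x 0) (Finsupp.single (Fin.tail x) c)
  rw [cons_single, Fin.cons_self_tail] at this
  exact this

lemma comp_cons {m : ℕ} (p q : Y) (w : U m) : comp p (cons q w) = if q = p then w else 0 := by
  have : (comp p).comp (cons (m := m) q) = if q = p then LinearMap.id else 0 := by
    apply Finsupp.lhom_ext
    intro x c
    by_cases hqp : q = p
    · subst hqp
      simp [cons_single, comp]
    · simp [cons_single, comp, hqp]
  have h2 := congrArg (fun L => L w) this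
  simp only [LinearMap.comp_apply] at h2
  rw [h2]
  split_ifs <;> rfl

lemma Del_cons_zero (y p : Y) (w : U 0) : Del y (cons p w) = if p = y then w else 0 := by
  have : (Del y).comp (cons (m := 0) p) = if p = y then LinearMap.id else 0 := by
    apply Finsupp.lhom_ext
    intro x c
    have hx : ∀ z : Fin 0 → Y, z = x := fun z => Subsingleton.elim _ _
    by_cases hqp : p = y
    · subst hqp
      simp [cons_single, Del, hx (face _ _)]
    · simp [cons_single, Del, hqp]
  have h2 := congrArg (fun L => L w) this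
  simp only [LinearMap.comp_apply] at h2
  rw [h2]
  split_ifs <;> rfl

lemma face_zero {m : ℕ} (p : Y) (x : Fin m → Y) :
    face 0 (Fin.cons p x : Fin (m + 1) → Y) = x := by
  funext j
  simp [face]

lemma face_succ {m : ℕ} (p : Y) (x : Fin (m + 1) → Y) (i : Fin (m + 1)) :
    face i.succ (Fin.cons p x : Fin (m + 2) → Y) =
      (Fin.cons (op p (x i)) (face i x) : Fin (m + 1) → Y) := by
  funext j
  refine Fin.cases ?_ (fun j => ?_) j
  · simp [face]
  · simp only [face, Fin.cons_succ, Fin.succ_succAbove_succ]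
    congr 1
    rw [← Fin.succ_castSucc, Fin.succ_lt_succ_iff]

lemma Del_cons_succ {m : ℕ} (y p : Y) (w : U (m + 1)) :
    Del y (cons p w) = (if p = y then w else 0) - cons (op p y) (Del y w) := by
  have : (Del y).comp (cons (m := m + 1) p) =
      (if p = y then LinearMap.id else 0) - (cons (op p y)).comp (Del y) := by
    apply Finsupp.lhom_ext
    intro x c
    simp only [LinearMap.comp_apply, cons_single, Del, Finsupp.linearCombination_single,
      LinearMap.sub_apply, map_smul, map_sum]
    rw [Fin.sum_univ_succ, smul_add, sub_eq_add_neg]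
    congr 1
    · simp only [Fin.cons_zero, face_zero]
      split_ifs <;> simp
    · rw [← smul_neg, ← Finset.sum_neg_distrib]
      congr 1
      refine Finset.sum_congr rfl fun i _ => ?_
      simp only [Fin.cons_succ, face_succ]
      split_ifs with h
      · rw [cons_single, h, ← Finsupp.single_neg]
        congr 1
        rw [Fin.val_succ, pow_succ]
        ring
      · simp
  have h2 := congrArg (fun L => L w) this
  simp only [LinearMap.comp_apply, LinearMap.sub_apply] at h2
  rw [h2]
  split_ifs <;> rfl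

lemma bd_eq (m : ℕ) : bd m = ∑ y : Y, Del y := by
  apply Finsupp.lhom_ext
  intro x c
  simp only [bd, LinearMap.sum_apply, LinearMap.smul_apply, Finsupp.lmapDomain_apply,
    Finsupp.mapDomain_single, Del, Finsupp.linearCombination_single]
  rw [← Finset.smul_sum, Finset.sum_comm]
  rw [Finset.smul_sum]
  refine Finset.sum_congr rfl fun i _ => ?_
  rw [Finset.sum_ite_eq]
  simp [mul_comm]

end Pool.Agent.Lib.MP_037dd7_al
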