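import Pool.Agent.Lib.MP_037dd7_al.Rel

set_option autoImplicit false

/-! Dimensions. -/

namespace Pool.Agent.Lib.MP_037dd7_al

open Module Submodule LinearMap

/-- rank and nullity of the restriction of a map to a subspace -/
lemma finrank_map_add {V W : Type*} [AddCommGroup V] [Module ℚ V] [AddCommGroup W] [Module ℚ W]
    [FiniteDimensional ℚ V] (f : V →ₗ[ℚ] W) (P : Submodule ℚ V) :
    finrank ℚ (P.map f) + finrank ℚ (ker f ⊓ P : Submodule ℚ V) = finrank ℚ P := by
  have h := LinearMap.finrank_range_add_finrank_ker (f.domRestrict P)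
  rw [LinearMap.range_domRestrict] at h
  have h2 : finrank ℚ (ker (f.domRestrict P)) = finrank ℚ (ker f ⊓ P : Submodule ℚ V) := by
    rw [LinearMap.ker_domRestrict]
    have e := Submodule.finrank_map_subtype_eq P (Submodule.comap P.subtype (ker f))
    rw [← e, Submodule.map_comap_subtype, inf_comm]
  omega

/-- the subcomplex: no letter `0` or `1` in first position, and total first coefficient zero -/
noncomputable def S (m : ℕ) : Submodule ℚ (U (m + 1)) :=
  ker eps ⊓ (ker (comp 0) ⊓ ker (comp 1))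

lemma mem_S {m : ℕ} {u : U (m + 1)} : u ∈ S m ↔ eps u = 0 ∧ comp 0 u = 0 ∧ comp 1 u = 0 := by
  simp [S, LinearMap.mem_ker, Submodule.mem_inf]

lemma bd_mem_S {m : ℕ} {u : U (m + 2)} (hu : u ∈ S (m + 1)) : bd (m + 1) u ∈ S m := by
  rw [mem_S] at hu ⊢
  obtain ⟨h1, h2, h3⟩ := hu
  rw [eps_bd, comp0_bd, comp1_bd, h1, h2, h3]
  simp

/-- the quotient by `S` is acyclic -/
lemma acyclic {m : ℕ} (u : U (m + 2)) (hu : bd (m + 1) u ∈ S m) :
    ∃ v : U (m + 3), u - bd (m + 2) v ∈ S (m + 1) := by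
  rw [mem_S] at hu
  obtain ⟨h1, h2, h3⟩ := hu
  -- step A
  obtain ⟨v1, hv1⟩ : ∃ v : U (m + 3), eps (u - bd (m + 2) v) = 0 := by
    refine ⟨cons 5 (dup (eps u)), ?_⟩
    rw [map_sub, eps_bd, eps_cons]
    rw [eps_bd] at h1
    cases m with
    | zero => rw [dup_zero, sub_self]
    | succ m => rw [dup_succ, h1, map_zero, sub_zero, sub_self]
  set u1 := u - bd (m + 2) v1 with hu1
  have h4 : bd (m + 1) u1 = bd (m + 1) u := by
    rw [hu1, map_sub, bd_bd, sub_zero]
  rw [← h4, comp0_bd, hv1] at h2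
  rw [← h4, comp1_bd, hv1] at h3
  simp only [map_zero, zero_sub, neg_eq_zero] at h2 h3
  -- step B
  have key : ∀ x : Y, x = 0 ∨ x = 1 → ∀ w : U (m + 1), Del 0 w + Del 1 w = 0 →
      bd (m + 2) (cons 5 (cons 0 w) - cons x (cons 0 w)) = cons x w - cons 5 w := by
    intro x hx w hw
    rw [map_sub, bd_cons_succ, bd_cons_succ, Fin.sum_univ_six, Fin.sum_univ_six]
    have e1 : Del 0 (cons 0 w) + Del 1 (cons 0 w) = w := by
      rw [Del0_cons0, Del1_cons0]
      have : cons 0 (Del 0 w + Del 1 w) = 0 := by rw [hw, map_zero]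
      rw [map_add] at this
      have h5 : cons 0 (Del 1 w) = - cons 0 (Del 0 w) := eq_neg_of_add_eq_zero_right this
      rw [h5]; abel
    have e2 : cons x (Del 0 (cons 0 w)) + cons x (Del 1 (cons 0 w)) = cons x w := by
      rw [← map_add, e1]
    have e3 : cons 5 (Del 0 (cons 0 w)) + cons 5 (Del 1 (cons 0 w)) = cons 5 w := by
      rw [← map_add, e1]
    refine Eq.trans (b := (cons x (Del 0 (cons 0 w)) + cons x (Del 1 (cons 0 w))) -
      (cons 5 (Del 0 (cons 0 w)) + cons 5 (Del 1 (cons 0 w)))) ?_ (by rw [e2, e3])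
    rcases hx with rfl | rfl
    · simp only [op, Matrix.cons_val]
      abel
    · simp only [op, Matrix.cons_val]
      abel
  refine ⟨v1 + (cons 5 (cons 0 (comp 0 u1)) - cons 0 (cons 0 (comp 0 u1))) +
    (cons 5 (cons 0 (comp 1 u1)) - cons 1 (cons 0 (comp 1 u1))), ?_⟩
  rw [map_add, map_add, key 0 (Or.inl rfl) _ h2, key 1 (Or.inr rfl) _ h3]
  have : u - (bd (m + 2) v1 + (cons 0 (comp 0 u1) - cons 5 (comp 0 u1)) +
      (cons 1 (comp 1 u1) - cons 5 (comp 1 u1))) =
      u1 - (cons 0 (comp 0 u1) - cons 5 (comp 0 u1)) -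
      (cons 1 (comp 1 u1) - cons 5 (comp 1 u1)) := by
    rw [hu1]; abel
  rw [this, mem_S]
  simp only [map_sub, eps_cons, comp_cons, hv1]
  simp

lemma finrank_S (m : ℕ) : finrank ℚ (S m) = 3 * 6 ^ m := by
  have h := LinearMap.finrank_range_add_finrank_ker
    ((eps (m := m)).prod ((comp (m := m) 0).prod (comp 1)))
  have h1 : range ((eps (m := m)).prod ((comp (m := m) 0).prod (comp 1))) = ⊤ := by
    rw [LinearMap.range_eq_top]
    rintro ⟨a, b, c⟩
    refine ⟨cons 0 b + cons 1 c + cons 5 (a - b - c), ?_⟩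
    simp only [LinearMap.prod_apply, Function.prod, map_add, eps_cons, comp_cons]
    simp
  rw [h1, finrank_top, LinearMap.ker_prod, LinearMap.ker_prod] at h
  simp only [Module.finrank_prod, finrank_U] at h
  have : finrank ℚ (S m) = finrank ℚ (ker (eps (m := m)) ⊓ (ker (comp (m := m) 0) ⊓ ker (comp 1)) :
    Submodule ℚ (U (m + 1))) := rfl
  rw [this]
  rw [pow_succ] at h
  omega

end Pool.Agent.Lib.MP_037dd7_al
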