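import Pool.Agent.Lib.MP_037dd7_al.Dim

set_option autoImplicit false

/-! The homology ranks. -/

namespace Pool.Agent.Lib.MP_037dd7_al

open Module Submodule LinearMap

/-- words killed by `Del 0` -/
noncomputable def A (m : ℕ) : Submodule ℚ (U (m + 1)) := ker (Del 0)

/-- words killed by `Del 0` and `Del 1` -/
noncomputable def K (m : ℕ) : Submodule ℚ (U (m + 1)) := ker (Del 1) ⊓ ker (Del 0)

lemma finrank_A_zero : finrank ℚ (A 0) = 5 := by
  have h := LinearMap.finrank_range_add_finrank_ker (Del (m := 0) 0)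
  have h1 : range (Del (m := 0) 0) = ⊤ := by
    rw [LinearMap.range_eq_top]
    intro w
    exact ⟨cons 0 w, by simp [Del_cons_zero]⟩
  rw [h1, finrank_top, finrank_U, finrank_U] at h
  change finrank ℚ (ker (Del (m := 0) 0)) = 5
  omega

lemma finrank_A_succ (m : ℕ) :
    finrank ℚ (A (m + 1)) + finrank ℚ (A m) = 6 ^ (m + 2) := by
  have h := LinearMap.finrank_range_add_finrank_ker (Del (m := m + 1) 0)
  have h1 : range (Del (m := m + 1) 0) = A m := by
    apply le_antisymm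
    · rintro _ ⟨w, rfl⟩
      exact Del00 w
    · intro w hw
      have hw' : Del 0 w = 0 := hw
      exact ⟨cons 0 w, by rw [Del0_cons0, hw', map_zero, sub_zero]⟩
  rw [h1, finrank_U] at h
  change finrank ℚ (ker (Del (m := m + 1) 0)) + _ = 6 ^ (m + 1 + 1)
  omega

lemma finrank_K_succ (m : ℕ) :
    finrank ℚ (K (m + 1)) + finrank ℚ (K m) = finrank ℚ (A (m + 1)) := by
  have h := finrank_map_add (Del (m := m + 1) 1) (A (m + 1))
  have h1 : (A (m + 1)).map (Del (m := m + 1) 1) = K m := by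
    apply le_antisymm
    · rintro _ ⟨w, hw, rfl⟩
      have hw' : Del 0 w = 0 := hw
      refine ⟨Del11 w, ?_⟩
      change Del 0 (Del 1 w) = 0
      rw [Del01, hw', map_zero, neg_zero]
    · rintro w ⟨hw1, hw0⟩
      have hw1' : Del 1 w = 0 := hw1
      have hw0' : Del 0 w = 0 := hw0
      refine ⟨cons 1 w, ?_, by rw [Del1_cons1, hw1', map_zero, sub_zero]⟩
      change Del 0 (cons 1 w) = 0
      rw [Del0_cons1, hw0', map_zero, neg_zero]
  rw [h1] at h
  have h2 : (K (m + 1)) = ker (Del 1) ⊓ A (m + 1) := rfl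
  rw [h2]
  omega

/-- the boundary on `S` -/
lemma bd_on_S {m : ℕ} {u : U (m + 2)} (hu : u ∈ S (m + 1)) :
    bd (m + 1) u = (cons 5 (Del 0 (comp 2 u)) - cons 3 (Del 0 (comp 2 u))) +
      (cons 5 (Del 1 (comp 2 u)) - cons 4 (Del 1 (comp 2 u))) := by
  rw [mem_S] at hu
  obtain ⟨h1, h2, h3⟩ := hu
  have h4 := sum_cons_comp u
  rw [Fin.sum_univ_six, h2, h3] at h4
  have h5 : comp 2 u + comp 3 u + comp 4 u + comp 5 u = 0 := by
    have := h1
    rw [eps, LinearMap.sum_apply, Fin.sum_univ_six, h2, h3] at this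
    simpa using this
  have h6 : comp 5 u = -(comp 2 u + comp 3 u + comp 4 u) := by
    exact eq_neg_of_add_eq_zero_right h5
  have h7 : bd (m + 1) u = bd (m + 1) (cons 2 (comp 2 u)) + bd (m + 1) (cons 3 (comp 3 u)) +
      bd (m + 1) (cons 4 (comp 4 u)) + bd (m + 1) (cons 5 (comp 5 u)) := by
    conv_lhs => rw [← h4]
    simp [map_add]
  rw [h7, h6]
  simp only [bd_cons_succ, Fin.sum_univ_six, map_neg, map_add, op, Matrix.cons_val]
  abel

lemma finrank_bdS (m : ℕ) :
    finrank ℚ ((S (m + 1)).map (bd (m + 1))) + finrank ℚ (K m) = 6 ^ (m + 1) := by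
  set G : U (m + 1) →ₗ[ℚ] U (m + 1) :=
    (cons 5 - cons 3).comp (Del 0) + (cons 5 - cons 4).comp (Del 1) with hG
  have h1 : (S (m + 1)).map (bd (m + 1)) = range G := by
    apply le_antisymm
    · rintro _ ⟨u, hu, rfl⟩
      refine ⟨comp 2 u, ?_⟩
      rw [bd_on_S hu]
      simp [hG]
    · rintro _ ⟨w, rfl⟩
      have hu : cons 2 w - cons 5 w ∈ S (m + 1) := by
        rw [mem_S]
        simp [eps_cons, comp_cons]
      refine ⟨cons 2 w - cons 5 w, hu, ?_⟩
      rw [bd_on_S hu]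
      have : comp 2 (cons 2 w - cons 5 w) = w := by simp [comp_cons]
      rw [this]
      simp [hG]
  have h2 : ker G = K m := by
    apply le_antisymm
    · intro w hw
      have hw' : G w = 0 := hw
      have h3 := congrArg (fun t => comp 3 t) hw'
      have h4 := congrArg (fun t => comp 4 t) hw'
      simp only [hG, LinearMap.add_apply, LinearMap.comp_apply, LinearMap.sub_apply, map_add,
        map_sub, comp_cons, map_zero] at h3 h4
      simp at h3 h4
      exact ⟨h4, h3⟩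
    · rintro w ⟨hw1, hw0⟩
      have hw1' : Del 1 w = 0 := hw1
      have hw0' : Del 0 w = 0 := hw0
      change G w = 0
      simp [hG, hw1', hw0']
  have h := LinearMap.finrank_range_add_finrank_ker G
  rw [finrank_U, h2] at h
  rw [h1, h]

/-- the homology in positive degrees -/
theorem finrank_homology (m : ℕ) :
    finrank ℚ (ker (bd (m + 1))) + 4 * 6 ^ (m + 1) =
      finrank ℚ (range (bd (m + 2))) + finrank ℚ (A (m + 1)) := by
  set Z := ker (bd (m + 1)) with hZ
  set B := range (bd (m + 2)) with hB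
  have hBZ : B ≤ Z := by
    rintro _ ⟨v, rfl⟩
    exact bd_bd v
  have hsup : B ⊔ (Z ⊓ S (m + 1)) = Z := by
    apply le_antisymm
    · exact sup_le hBZ inf_le_left
    · intro u hu
      have hu' : bd (m + 1) u = 0 := hu
      obtain ⟨v, hv⟩ := acyclic u (by rw [hu']; exact Submodule.zero_mem _)
      have h1 : u = bd (m + 2) v + (u - bd (m + 2) v) := by abel
      rw [h1]
      refine Submodule.add_mem_sup ⟨v, rfl⟩ ⟨?_, hv⟩
      change bd (m + 1) (u - bd (m + 2) v) = 0
      rw [map_sub, bd_bd, hu', sub_zero]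
  have hinf : B ⊓ (Z ⊓ S (m + 1)) = (S (m + 2)).map (bd (m + 2)) := by
    apply le_antisymm
    · rintro _ ⟨⟨v, rfl⟩, -, hv⟩
      obtain ⟨v', hv'⟩ := acyclic v hv
      refine ⟨v - bd (m + 3) v', hv', ?_⟩
      rw [map_sub, bd_bd, sub_zero]
    · rintro _ ⟨v, hv, rfl⟩
      exact ⟨⟨v, rfl⟩, bd_bd v, bd_mem_S hv⟩
  obtain ⟨zs, hzs⟩ : ∃ n : ℕ, finrank ℚ (Z ⊓ S (m + 1) : Submodule ℚ (U (m + 2))) = n := ⟨_, rfl⟩
  obtain ⟨bs, hbs⟩ : ∃ n : ℕ, finrank ℚ ((S (m + 2)).map (bd (m + 2))) = n := ⟨_, rfl⟩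
  obtain ⟨t, ht⟩ : ∃ n : ℕ, (6 : ℕ) ^ (m + 1) = n := ⟨_, rfl⟩
  have e1 : finrank ℚ Z + bs = finrank ℚ B + zs := by
    have h := Submodule.finrank_sup_add_finrank_inf_eq B (Z ⊓ S (m + 1))
    rw [hsup, hinf] at h
    rw [← hzs, ← hbs]
    exact h
  have e2 : finrank ℚ ((S (m + 1)).map (bd (m + 1))) + zs = 3 * t := by
    rw [← hzs, ← ht, ← finrank_S]
    exact finrank_map_add (bd (m + 1)) (S (m + 1))
  have e3 : finrank ℚ ((S (m + 1)).map (bd (m + 1))) + finrank ℚ (K m) = t := by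
    rw [← ht]
    exact finrank_bdS m
  have e4 : bs + finrank ℚ (K (m + 1)) = 6 * t := by
    rw [← hbs, ← ht, ← pow_succ']
    exact finrank_bdS (m + 1)
  have e5 := finrank_K_succ m
  rw [ht]
  omega

end Pool.Agent.Lib.MP_037dd7_al
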