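import Pool.Agent.Lib.MP_037dd7_al.Basic

set_option autoImplicit false

/-! Relations between the operators. -/

namespace Pool.Agent.Lib.MP_037dd7_al

lemma bd_cons_zero (p : Y) (w : U 0) : bd 0 (cons p w) = w := by
  rw [bd_eq]
  simp [Del_cons_zero]

lemma bd_cons_succ {m : ℕ} (p : Y) (w : U (m + 1)) :
    bd (m + 1) (cons p w) = w - ∑ y : Y, cons (op p y) (Del y w) := by
  rw [bd_eq]
  simp [Del_cons_succ, Finset.sum_sub_distrib]

/-- the key vanishing, with values in an arbitrary set with an action of the spindle -/
lemma dd_aux (V : Type) [AddCommGroup V] [Module ℚ V] (m : ℕ) :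
    ∀ (M : Type) (act : M → Y → M)
      (_ : ∀ (μ : M) (u v : Y), act (act μ u) v = act (act μ v) (op u v))
      (L : M → U m →ₗ[ℚ] V) (μ : M) (w : U (m + 2)),
      ∑ y : Y, ∑ z : Y, L (act (act μ y) z) (Del z (Del y w)) = 0 := by
  induction m with
  | zero =>
    intro M act hact L μ w
    have : (∑ y : Y, ∑ z : Y, (L (act (act μ y) z)).comp ((Del (m := 0) z).comp
        (Del (m := 1) y))) = 0 := by
      apply ext_cons
      intro p w'
      simp only [LinearMap.sum_apply, LinearMap.comp_apply, LinearMap.zero_apply,
        Del_cons_succ, map_sub, Finset.sum_sub_distrib, Del_cons_zero]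
      have e1 : ∑ y : Y, ∑ z : Y, (L (act (act μ y) z)) ((Del z) (if p = y then w' else 0)) =
          ∑ z : Y, (L (act (act μ p) z)) ((Del z) w') := by
        rw [Finset.sum_eq_single p]
        · simp
        · intro b _ hb
          simp [Ne.symm hb]
        · simp
      have e2 : ∑ y : Y, ∑ z : Y, (L (act (act μ y) z)) (if op p y = z then (Del y) w' else 0) =
          ∑ z : Y, (L (act (act μ p) z)) ((Del z) w') := by
        refine Finset.sum_congr rfl fun y _ => ?_
        rw [Finset.sum_eq_single (op p y)]
        · rw [if_pos rfl, hact μ p y]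
        · intro b _ hb
          simp [Ne.symm hb]
        · simp
      rw [e1, e2, sub_self]
    have h2 := congrArg (fun L => L w) this
    simpa only [LinearMap.sum_apply, LinearMap.comp_apply, LinearMap.zero_apply] using h2
  | succ m ih =>
    intro M act hact L μ w
    have : (∑ y : Y, ∑ z : Y, (L (act (act μ y) z)).comp ((Del (m := m + 1) z).comp
        (Del (m := m + 2) y))) = 0 := by
      apply ext_cons
      intro p w'
      simp only [LinearMap.sum_apply, LinearMap.comp_apply, LinearMap.zero_apply,
        Del_cons_succ, map_sub, Finset.sum_sub_distrib]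
      have e1 : ∑ y : Y, ∑ z : Y, (L (act (act μ y) z)) ((Del z) (if p = y then w' else 0)) =
          ∑ z : Y, (L (act (act μ p) z)) ((Del z) w') := by
        rw [Finset.sum_eq_single p]
        · simp
        · intro b _ hb
          simp [Ne.symm hb]
        · simp
      have e2 : ∑ y : Y, ∑ z : Y, (L (act (act μ y) z)) (if op p y = z then (Del y) w' else 0) =
          ∑ z : Y, (L (act (act μ p) z)) ((Del z) w') := by
        refine Finset.sum_congr rfl fun y _ => ?_
        rw [Finset.sum_eq_single (op p y)]
        · rw [if_pos rfl, hact μ p y]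
        · intro b _ hb
          simp [Ne.symm hb]
        · simp
      have e3 := ih (M × Y) (fun q y => (act q.1 y, op q.2 y))
        (fun q u v => Prod.ext (hact _ _ _) (op_dist _ _ _))
        (fun q => (L q.1).comp (cons q.2)) (μ, p) w'
      simp only [LinearMap.comp_apply] at e3
      rw [e1, e2, e3]
      simp
    have h2 := congrArg (fun L => L w) this
    simpa only [LinearMap.sum_apply, LinearMap.comp_apply, LinearMap.zero_apply] using h2

lemma bd_bd {m : ℕ} (w : U (m + 2)) : bd m (bd (m + 1) w) = 0 := by
  have h0 := dd_aux (U m) m Unit (fun _ _ => ()) (fun _ _ _ => rfl) (fun _ => LinearMap.id) () w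
  simp only [LinearMap.id_apply] at h0
  have h1 : bd m (bd (m + 1) w) = ∑ y : Y, ∑ z : Y, Del z (Del y w) := by
    rw [bd_eq m, bd_eq (m + 1), LinearMap.sum_apply, LinearMap.sum_apply]
    simp only [map_sum]
    rw [Finset.sum_comm]
  rw [h1, h0]

lemma op_fix0 (p y : Y) (hy : y = 0 ∨ y = 1) : op p y = 0 ↔ p = 0 := by
  revert p y; decide

lemma op_fix1 (p y : Y) (hy : y = 0 ∨ y = 1) : op p y = 1 ↔ p = 1 := by
  revert p y; decide

lemma op_comm (p : Y) : op (op p 0) 1 = op (op p 1) 0 := by
  revert p; decide

lemma Del00 : ∀ {m : ℕ} (w : U (m + 2)), Del 0 (Del 0 w) = 0 := by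
  intro m
  induction m with
  | zero =>
    intro w
    have : (Del (m := 0) 0).comp (Del (m := 1) 0) = 0 := by
      apply ext_cons
      intro p w'
      simp only [LinearMap.comp_apply, Del_cons_succ, map_sub, Del_cons_zero,
        LinearMap.zero_apply, op_fix0 p 0 (Or.inl rfl)]
      split_ifs <;> simp
    exact congrArg (fun L => L w) this
  | succ m ih =>
    intro w
    have : (Del (m := m + 1) 0).comp (Del (m := m + 2) 0) = 0 := by
      apply ext_cons
      intro p w'
      simp only [LinearMap.comp_apply, Del_cons_succ, map_sub, ih, map_zero,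
        LinearMap.zero_apply, op_fix0 p 0 (Or.inl rfl)]
      split_ifs <;> simp
    exact congrArg (fun L => L w) this

lemma Del11 : ∀ {m : ℕ} (w : U (m + 2)), Del 1 (Del 1 w) = 0 := by
  intro m
  induction m with
  | zero =>
    intro w
    have : (Del (m := 0) 1).comp (Del (m := 1) 1) = 0 := by
      apply ext_cons
      intro p w'
      simp only [LinearMap.comp_apply, Del_cons_succ, map_sub, Del_cons_zero,
        LinearMap.zero_apply, op_fix1 p 1 (Or.inr rfl)]
      split_ifs <;> simp
    exact congrArg (fun L => L w) this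
  | succ m ih =>
    intro w
    have : (Del (m := m + 1) 1).comp (Del (m := m + 2) 1) = 0 := by
      apply ext_cons
      intro p w'
      simp only [LinearMap.comp_apply, Del_cons_succ, map_sub, ih, map_zero,
        LinearMap.zero_apply, op_fix1 p 1 (Or.inr rfl)]
      split_ifs <;> simp
    exact congrArg (fun L => L w) this

lemma Del01 : ∀ {m : ℕ} (w : U (m + 2)), Del 0 (Del 1 w) = - Del 1 (Del 0 w) := by
  intro m
  induction m with
  | zero =>
    intro w
    have : (Del (m := 0) 0).comp (Del (m := 1) 1) = - (Del (m := 0) 1).comp (Del (m := 1) 0) := by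
      apply ext_cons
      intro p w'
      simp only [LinearMap.comp_apply, Del_cons_succ, map_sub, Del_cons_zero,
        LinearMap.neg_apply, op_fix1 p 0 (Or.inl rfl), op_fix0 p 1 (Or.inr rfl)]
      split_ifs <;> simp
    exact congrArg (fun L => L w) this
  | succ m ih =>
    intro w
    have : (Del (m := m + 1) 0).comp (Del (m := m + 2) 1) =
        - (Del (m := m + 1) 1).comp (Del (m := m + 2) 0) := by
      apply ext_cons
      intro p w'
      simp only [LinearMap.comp_apply, Del_cons_succ, map_sub, ih, map_neg, op_comm p,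
        LinearMap.neg_apply, op_fix1 p 0 (Or.inl rfl), op_fix0 p 1 (Or.inr rfl)]
      split_ifs <;> simp <;> abel
    exact congrArg (fun L => L w) this

lemma Del0_cons0 {m : ℕ} (w : U (m + 1)) : Del 0 (cons 0 w) = w - cons 0 (Del 0 w) := by
  rw [Del_cons_succ]; simp [show op 0 0 = 0 from rfl]

lemma Del1_cons0 {m : ℕ} (w : U (m + 1)) : Del 1 (cons 0 w) = - cons 0 (Del 1 w) := by
  rw [Del_cons_succ]; simp [show op 0 1 = 0 from rfl]

lemma Del1_cons1 {m : ℕ} (w : U (m + 1)) : Del 1 (cons 1 w) = w - cons 1 (Del 1 w) := by
  rw [Del_cons_succ]; simp [show op 1 1 = 1 from rfl]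

lemma Del0_cons1 {m : ℕ} (w : U (m + 1)) : Del 0 (cons 1 w) = - cons 1 (Del 0 w) := by
  rw [Del_cons_succ]; simp [show op 1 0 = 1 from rfl]

/-- forget the first letter -/
noncomputable def eps {m : ℕ} : U (m + 1) →ₗ[ℚ] U m := ∑ p : Y, comp p

lemma eps_cons {m : ℕ} (p : Y) (w : U m) : eps (cons p w) = w := by
  simp [eps, comp_cons]

lemma sum_cons_comp {m : ℕ} (u : U (m + 1)) : ∑ p : Y, cons p (comp p u) = u := by
  have : (∑ p : Y, (cons (m := m) p).comp (comp p)) = LinearMap.id := by
    apply ext_cons
    intro q w
    simp only [LinearMap.sum_apply, LinearMap.comp_apply, comp_cons, LinearMap.id_apply]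
    rw [Finset.sum_eq_single q]
    · simp
    · intro b _ hb
      simp [Ne.symm hb]
    · simp
  have h2 := congrArg (fun L => L u) this
  simpa only [LinearMap.sum_apply, LinearMap.comp_apply, LinearMap.id_apply] using h2

/-- the boundary and forgetting the first letter -/
lemma eps_bd {m : ℕ} (u : U (m + 2)) :
    eps (bd (m + 1) u) = eps (eps u) - bd m (eps u) := by
  have : (eps (m := m)).comp (bd (m + 1)) = (eps (m := m)).comp eps - (bd m).comp eps := by
    apply ext_cons
    intro p w
    simp only [LinearMap.comp_apply, LinearMap.sub_apply, bd_cons_succ, map_sub, map_sum,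
      eps_cons]
    rw [bd_eq]
    simp
  exact congrArg (fun L => L u) this

lemma comp0_bd {m : ℕ} (u : U (m + 2)) :
    comp 0 (bd (m + 1) u) = comp 0 (eps u) - (Del 0 (comp 0 u) + Del 1 (comp 0 u)) := by
  have : (comp (m := m) 0).comp (bd (m + 1)) =
      (comp (m := m) 0).comp eps - ((Del 0).comp (comp 0) + (Del 1).comp (comp 0)) := by
    apply ext_cons
    intro p w
    simp only [LinearMap.comp_apply, LinearMap.sub_apply, LinearMap.add_apply, bd_cons_succ,
      map_sub, map_sum, eps_cons, comp_cons]
    congr 1
    rw [Fin.sum_univ_six]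
    fin_cases p <;> simp [op]
  exact congrArg (fun L => L u) this

lemma comp1_bd {m : ℕ} (u : U (m + 2)) :
    comp 1 (bd (m + 1) u) = comp 1 (eps u) - (Del 0 (comp 1 u) + Del 1 (comp 1 u)) := by
  have : (comp (m := m) 1).comp (bd (m + 1)) =
      (comp (m := m) 1).comp eps - ((Del 0).comp (comp 1) + (Del 1).comp (comp 1)) := by
    apply ext_cons
    intro p w
    simp only [LinearMap.comp_apply, LinearMap.sub_apply, LinearMap.add_apply, bd_cons_succ,
      map_sub, map_sum, eps_cons, comp_cons]
    congr 1
    rw [Fin.sum_univ_six]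
    fin_cases p <;> simp [op]
  exact congrArg (fun L => L u) this

/-- duplicate the first letter -/
noncomputable def dup {m : ℕ} : U (m + 1) →ₗ[ℚ] U (m + 2) :=
  ∑ p : Y, (cons p).comp ((cons p).comp (comp p))

lemma dup_cons {m : ℕ} (p : Y) (w : U m) : dup (cons p w) = cons p (cons p w) := by
  simp only [dup, LinearMap.sum_apply, LinearMap.comp_apply, comp_cons]
  rw [Finset.sum_eq_single p]
  · simp
  · intro b _ hb
    simp [Ne.symm hb]
  · simp

lemma dup_zero (w : U 1) : eps (dup w) - bd 1 (dup w) = w := by
  have : (eps (m := 1)).comp dup - (bd 1).comp dup = LinearMap.id := by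
    apply ext_cons
    intro p w'
    simp only [LinearMap.comp_apply, LinearMap.sub_apply, dup_cons, eps_cons, bd_cons_succ,
      Del_cons_zero, LinearMap.id_apply]
    rw [Finset.sum_eq_single p]
    · simp [op_idem]
    · intro b _ hb
      simp [Ne.symm hb]
    · simp
  exact congrArg (fun L => L w) this

lemma dup_succ {m : ℕ} (w : U (m + 2)) :
    eps (dup w) - bd (m + 2) (dup w) = w - dup (eps w - bd (m + 1) w) := by
  have : (eps (m := m + 2)).comp dup - (bd (m + 2)).comp dup =
      LinearMap.id - dup.comp (eps - bd (m + 1)) := by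
    apply ext_cons
    intro p w'
    simp only [LinearMap.comp_apply, LinearMap.sub_apply, dup_cons, eps_cons, bd_cons_succ,
      Del_cons_succ, LinearMap.id_apply, map_sub, map_sum, Finset.sum_sub_distrib]
    have e1 : ∑ y : Y, cons (op p y) (if p = y then w' else 0) = cons p w' := by
      rw [Finset.sum_eq_single p]
      · simp [op_idem]
      · intro b _ hb
        simp [Ne.symm hb]
      · simp
    have e2 : dup w' = dup w' := rfl
    rw [e1]
    abel
  exact congrArg (fun L => L w) this

end Pool.Agent.Lib.MP_037dd7_al
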